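import Pool.Agent.Helper741_HFC.Core

set_option autoImplicit false

/-!
# Every HFC space is a D-space

Question 1 of MP_2abaf2_gt, answered positively.  The index set `λ` is replaced by an arbitrary
linearly ordered type `ι`, so the case of an uncountable cardinal `λ` (with the order of the
ordinals below `λ`) is included.  The proof is described in `Pool/Agent/Helper741_HFC/Core.lean`.
-/

namespace Pool.Agent.Results.MP_2abaf2_gt.EveryHFCIsD

open Set Pool.Agent.Helper741_HFC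

universe u

/-- A topological space `Z` is a *D-space* if every neighbourhood assignment `U` has a closed
discrete kernel: a closed set `D` with `⋃ x ∈ D, U x = Z` all of whose points are isolated
in `D`. -/
def IsDSpace (Z : Type u) [TopologicalSpace Z] : Prop :=
  ∀ U : Z → Set Z, (∀ x, IsOpen (U x) ∧ x ∈ U x) →
    ∃ D : Set Z, IsClosed D ∧ (∀ x ∈ D, ∃ O : Set Z, IsOpen O ∧ O ∩ D = {x}) ∧
      (⋃ x ∈ D, U x) = univ

/-- **MP_2abaf2_gt, Question 1, positive answer.**  Every HFC space `X ⊆ 2^ι` is a D-space. -/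
theorem result {ι : Type u} [LinearOrder ι] (X : Set (ι → Bool)) (hX : IsHFC X) :
    IsDSpace X := by
  intro U hU
  obtain ⟨D, hcov, hlf⟩ := hfc_kernel X hX U hU
  have key : ∀ z : X, ∃ O : Set X, IsOpen O ∧ z ∈ O ∧ (O ∩ D).Finite := by
    intro z
    obtain ⟨F, hF, _, hz, hfin⟩ := hlf z
    exact ⟨⋂ x ∈ F, U x, hF.isOpen_biInter (fun x _ => (hU x).1), hz, hfin⟩
  refine ⟨D, ?_, ?_, hcov⟩
  · rw [← isOpen_compl_iff, isOpen_iff_forall_mem_open]
    intro z hz
    obtain ⟨O, hO, hzO, hfin⟩ := key z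
    refine ⟨O \ (O ∩ D), ?_, hO.sdiff hfin.isClosed, ⟨hzO, fun h => hz h.2⟩⟩
    intro y hy hyD
    exact hy.2 ⟨hy.1, hyD⟩
  · intro x hx
    obtain ⟨O, hO, hxO, hfin⟩ := key x
    refine ⟨O \ ((O ∩ D) \ {x}), hO.sdiff (hfin.subset sdiff_subset).isClosed, ?_⟩
    ext y
    constructor
    · rintro ⟨⟨hyO, hy⟩, hyD⟩
      by_contra hne
      exact hy ⟨⟨hyO, hyD⟩, hne⟩
    · rintro rfl
      exact ⟨⟨hxO, fun h => h.2 rfl⟩, hx⟩

end Pool.Agent.Results.MP_2abaf2_gt.EveryHFCIsD
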